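import Pool.Agent.P8H71.SK.Stm

/-!
# Project SK (helper71), package CLO (helper43)
-/

set_option autoImplicit false

open MeasureTheory Set Filter Topology
open scoped ENNReal symmDiff

namespace Pool.Agent.P8H43.SK

open Pool.Agent.P8H71.SK

theorem gam_eq (d : ℕ) : (Gam d : Set (SLd d)) =
    ⋂ i : Fin d, ⋂ j : Fin d, (fun g : SLd d => g.1 i j) ⁻¹' (Set.range ((↑) : ℤ → ℝ)) := by
  ext g
  simp only [Set.mem_iInter, Set.mem_preimage, SetLike.mem_coe]
  constructor
  · rintro ⟨A, rfl⟩ i j
    exact ⟨A.1 i j, rfl⟩
  · intro h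
    choose a ha using h
    have hA : (Matrix.of a).map (Int.castRingHom ℝ) = g.1 := by
      ext i j
      exact ha i j
    have hdet : (Matrix.of a).det = 1 := by
      have h1 : ((Matrix.of a).det : ℝ) = 1 := by
        have h2 := RingHom.map_det (Int.castRingHom ℝ) (Matrix.of a)
        rw [RingHom.mapMatrix_apply, hA, g.2] at h2
        exact h2
      exact_mod_cast h1
    refine ⟨⟨Matrix.of a, hdet⟩, ?_⟩
    apply Subtype.ext
    exact hA

theorem clo : S_CLO := by
  intro d
  rw [gam_eq]
  refine isClosed_iInter fun i => isClosed_iInter fun j => IsClosed.preimage ?_ ?_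
  · exact (continuous_apply j).comp ((continuous_apply i).comp continuous_subtype_val)
  · exact Int.isClosedEmbedding_coe_real.isClosed_range

end Pool.Agent.P8H43.SK
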